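import Pool.Agent.Helper58.LC.Goals

/-!
# Project LC (MP_957450_co), packet LC-CC1: sign vectors of affine functions of one variable
-/

set_option autoImplicit false

namespace Pool.Agent.Helper37.LC.CC1

open Pool.Agent.Helper58.LC
open Classical Finset

/-- two affine functions of one variable do not cut the line like a cross -/
theorem no_cross (a0 b0 a1 b1 j j' k k' : ℝ) (h1 : a0 * j + b0 < 0) (h2 : ¬ a0 * j' + b0 < 0)
    (h3 : a0 * k + b0 < 0) (h4 : ¬ a0 * k' + b0 < 0) (g1 : a1 * j + b1 < 0)
    (g2 : a1 * j' + b1 < 0) (g3 : ¬ a1 * k + b1 < 0) (g4 : ¬ a1 * k' + b1 < 0) : False := by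
  rw [not_lt] at h2 h4 g3 g4
  have e1 : 0 < a0 * (k' - j) := by linarith
  have e2 : 0 < a1 * (k' - j) := by linarith
  have e3 : 0 < a0 * (j' - k) := by linarith
  have e4 : 0 < a1 * (k - j') := by linarith
  have p1 : 0 < a0 * a1 * (k' - j) ^ 2 := by
    have := mul_pos e1 e2
    linarith [this, show a0 * (k' - j) * (a1 * (k' - j)) = a0 * a1 * (k' - j) ^ 2 by ring]
  have p2 : a0 * a1 * (j' - k) ^ 2 < 0 := by
    have := mul_pos e3 e4
    linarith [this, show a0 * (j' - k) * (a1 * (k - j')) = -(a0 * a1 * (j' - k) ^ 2) by ring]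
  have q1 : 0 < a0 * a1 := by
    by_contra h
    rw [not_lt] at h
    have := mul_nonneg_of_nonpos_of_nonpos h (neg_nonpos.2 (sq_nonneg (k' - j)))
    linarith
  have := mul_nonneg q1.le (sq_nonneg (j' - k))
  linarith

theorem t : CC1 := by
  intro I J a b t T Q
  induction T using Finset.induction_on generalizing Q with
  | empty =>
    have h : (Q.image fun j => (∅ : Finset I).filter fun i => a i * t j + b i < 0) ⊆ {∅} := by
      intro x hx
      rw [mem_image] at hx
      obtain ⟨j, -, rfl⟩ := hx
      rw [filter_empty]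
      exact mem_singleton_self _
    have := card_le_card h
    rw [card_singleton] at this
    simpa using this
  | insert i₀ T hi ih =>
    set F : J → Finset I := fun j => T.filter fun i => a i * t j + b i < 0 with hF
    set Q0 := Q.filter fun j => ¬ a i₀ * t j + b i₀ < 0 with hQ0
    set Q1 := Q.filter fun j => a i₀ * t j + b i₀ < 0 with hQ1
    have hsub : (Q.image fun j => (insert i₀ T).filter fun i => a i * t j + b i < 0) ⊆
        Q0.image F ∪ (Q1.image F).image (insert i₀) := by
      intro x hx
      rw [mem_image] at hx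
      obtain ⟨j, hj, rfl⟩ := hx
      rw [mem_union, filter_insert]
      by_cases h : a i₀ * t j + b i₀ < 0
      · right
        rw [if_pos h]
        exact mem_image_of_mem _ (mem_image_of_mem F (mem_filter.2 ⟨hj, h⟩))
      · left
        rw [if_neg h]
        exact mem_image_of_mem F (mem_filter.2 ⟨hj, h⟩)
    have hun : Q0.image F ∪ Q1.image F ⊆ Q.image F := by
      apply union_subset
      · exact image_subset_image (filter_subset _ _)
      · exact image_subset_image (filter_subset _ _)
    have hint : (Q0.image F ∩ Q1.image F).card ≤ 1 := by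
      rw [card_le_one]
      intro σ hσ τ hτ
      rw [mem_inter, mem_image, mem_image] at hσ hτ
      obtain ⟨⟨j', hj', e1⟩, ⟨j, hj, e2⟩⟩ := hσ
      obtain ⟨⟨k', hk', f1⟩, ⟨k, hk, f2⟩⟩ := hτ
      rw [mem_filter] at hj hj' hk hk'
      have m : ∀ (x : J) (i : I), i ∈ F x ↔ i ∈ T ∧ a i * t x + b i < 0 := by
        intro x i
        rw [hF, mem_filter]
      ext i
      by_contra hne
      rcases Classical.em (i ∈ σ) with h | h
      · have h' : i ∉ τ := fun h' => hne (iff_of_true h h')
        have a1 := (m j i).1 (e2 ▸ h)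
        have a2 := (m j' i).1 (e1 ▸ h)
        have a3 : ¬ a i * t k + b i < 0 := fun hh => h' (f2 ▸ (m k i).2 ⟨a1.1, hh⟩)
        have a4 : ¬ a i * t k' + b i < 0 := fun hh => h' (f1 ▸ (m k' i).2 ⟨a1.1, hh⟩)
        exact no_cross _ _ _ _ _ _ _ _ hj.2 hj'.2 hk.2 hk'.2 a1.2 a2.2 a3 a4
      · have h' : i ∈ τ := by
          by_contra h'
          exact hne (iff_of_false h h')
        have a1 := (m k i).1 (f2 ▸ h')
        have a2 := (m k' i).1 (f1 ▸ h')
        have a3 : ¬ a i * t j + b i < 0 := fun hh => h (e2 ▸ (m j i).2 ⟨a1.1, hh⟩)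
        have a4 : ¬ a i * t j' + b i < 0 := fun hh => h (e1 ▸ (m j' i).2 ⟨a1.1, hh⟩)
        exact no_cross _ _ _ _ _ _ _ _ hk.2 hk'.2 hj.2 hj'.2 a1.2 a2.2 a3 a4
    have h1 := card_le_card hsub
    have h2 := card_union_le (Q0.image F) ((Q1.image F).image (insert i₀))
    have h3 : ((Q1.image F).image (insert i₀)).card ≤ (Q1.image F).card := card_image_le
    have h4 := card_union_add_card_inter (Q0.image F) (Q1.image F)
    have h5 := card_le_card hun
    have h6 : (Q.image F).card ≤ T.card + 1 := ih Q
    have h7 : (insert i₀ T).card = T.card + 1 := card_insert_of_notMem hi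
    omega

end Pool.Agent.Helper37.LC.CC1
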